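import Pool.Agent.helper47.MSW.SpecA
import Pool.Agent.helper47.MSW.SpecB

/-!
# Row msw:PTD (pairs are negligible)
-/

set_option autoImplicit false

namespace Pool.Agent.MSW

open Equiv Finset Function MeasureTheory Pool.Agent.helper48.PP
open Pool.Agent.DSW (Pr Has GP wt)
open scoped ENNReal Classical

noncomputable section

theorem PTD_A1nil (hHMN : HMN_stmt) (H : ℕ) (p : ℝ) : A1 H p [] = 1 := by
  unfold A1
  rw [tsum_eq_single (0 : Pt)]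
  · have h : {ω : Om | mnU [] ω 0} = Set.univ := by
      ext ω
      simp only [Set.mem_ofPred_eq, Set.mem_univ, iff_true]
      exact (hHMN.2.2.2.2.2.2.2 ω 0).2 rfl
    rw [h, measure_univ, mul_one]
    have h2 : nm 0 = 0 := rfl
    rw [h2, mul_zero, pow_zero]
  · intro z hz
    have h : {ω : Om | mnU [] ω z} = ∅ := by
      ext ω
      simp only [Set.mem_ofPred_eq, Set.mem_empty_iff_false, iff_false]
      intro h
      exact hz ((hHMN.2.2.2.2.2.2.2 ω z).1 h)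
    rw [h, measure_empty, mul_zero]

theorem PTD_A2nil (hHMN : HMN_stmt) (H : ℕ) (p : ℝ) : A2 H p [] = 0 := by
  unfold A2
  rw [ENNReal.tsum_eq_zero]
  intro zz
  split_ifs with hz
  · rfl
  · have h : {ω : Om | mnU [] ω zz.1 ∧ mnU [] ω zz.2} = ∅ := by
      ext ω
      simp only [Set.mem_ofPred_eq, Set.mem_empty_iff_false, iff_false]
      rintro ⟨h1, h2⟩
      have e1 := (hHMN.2.2.2.2.2.2.2 ω zz.1).1 h1
      have e2 := (hHMN.2.2.2.2.2.2.2 ω zz.2).1 h2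
      exact hz (by rw [e1, e2])
    rw [h, measure_empty, mul_zero]

theorem PTD_num (a1 a2 b1 b2 : ℝ≥0∞) (θ c₁ K₁ ρ : ℝ) (m : ℕ) (hθ : 0 < θ) (hc : 0 < c₁)
    (hK : 0 < K₁) (hK1 : 4 * K₁ / c₁ * θ ≤ 1 / 6) (hρ1 : ρ ≤ 1)
    (h0 : b1 ≤ ENNReal.ofReal ρ * a1)
    (h1 : ENNReal.ofReal (c₁ * θ ^ m) * a1 ≤ b1 + ENNReal.ofReal (3 * c₁ * θ ^ m) * a2)
    (h2 : b2 ≤ ENNReal.ofReal (K₁ * θ ^ (m + 1)) * a1 + ENNReal.ofReal (K₁ * θ ^ (m + 1)) * a2)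
    (ih : a2 ≤ ENNReal.ofReal (4 * K₁ / c₁ * θ) * a1) (ha : a1 ≤ 1) :
    b2 ≤ ENNReal.ofReal (4 * K₁ / c₁ * θ) * b1 ∧ b1 ≤ 1 ∧ ENNReal.ofReal (c₁ / 2 * θ ^ m) * a1 ≤ b1 := by
  have ha1 : a1 ≠ ⊤ := ne_top_of_le_ne_top ENNReal.one_ne_top ha
  have ha2 : a2 ≠ ⊤ := ne_top_of_le_ne_top (ENNReal.mul_ne_top ENNReal.ofReal_ne_top ha1) ih
  have hb1 : b1 ≠ ⊤ := ne_top_of_le_ne_top (ENNReal.mul_ne_top ENNReal.ofReal_ne_top ha1) h0
  have hb2 : b2 ≠ ⊤ := ne_top_of_le_ne_top (ENNReal.add_ne_top.2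
    ⟨ENNReal.mul_ne_top ENNReal.ofReal_ne_top ha1, ENNReal.mul_ne_top ENNReal.ofReal_ne_top ha2⟩) h2
  lift a1 to NNReal using ha1
  lift a2 to NNReal using ha2
  lift b1 to NNReal using hb1
  lift b2 to NNReal using hb2
  have hof : ∀ (x : ℝ) (y : NNReal), 0 ≤ x → ENNReal.ofReal x * (y : ℝ≥0∞) = ENNReal.ofReal (x * y) := by
    intro x y hx
    rw [ENNReal.ofReal_mul hx, ENNReal.ofReal_coe_nnreal]
  have hcoe : ∀ y : NNReal, (y : ℝ≥0∞) = ENNReal.ofReal (y : ℝ) := fun y => (ENNReal.ofReal_coe_nnreal).symm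
  have p1 : 0 ≤ c₁ * θ ^ m := by positivity
  have p2 : 0 ≤ 3 * c₁ * θ ^ m := by positivity
  have p3 : 0 ≤ K₁ * θ ^ (m + 1) := by positivity
  have p4 : 0 ≤ 4 * K₁ / c₁ * θ := by positivity
  have p5 : 0 ≤ c₁ / 2 * θ ^ m := by positivity
  have hA : (0 : ℝ) ≤ a1 := a1.coe_nonneg
  have hA2 : (0 : ℝ) ≤ a2 := a2.coe_nonneg
  have hB : (0 : ℝ) ≤ b1 := b1.coe_nonneg
  have hB2 : (0 : ℝ) ≤ b2 := b2.coe_nonneg
  rw [hof _ _ p1, hof _ _ p2, hcoe b1, ← ENNReal.ofReal_add hB (mul_nonneg p2 hA2),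
    ENNReal.ofReal_le_ofReal_iff (by positivity)] at h1
  rw [hof _ _ p3, hof _ _ p3, hcoe b2, ← ENNReal.ofReal_add (mul_nonneg p3 hA) (mul_nonneg p3 hA2),
    ENNReal.ofReal_le_ofReal_iff (by positivity)] at h2
  rw [hof _ _ p4, hcoe a2, ENNReal.ofReal_le_ofReal_iff (by positivity)] at ih
  have hb1' : b1 ≤ a1 := by
    have h3 : (b1 : ℝ≥0∞) ≤ 1 * (a1 : ℝ≥0∞) := h0.trans (mul_le_mul_left (ENNReal.ofReal_le_one.2 hρ1) _)
    rw [one_mul] at h3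
    exact_mod_cast h3
  have hlow : c₁ / 2 * θ ^ m * (a1 : ℝ) ≤ b1 := by
    have h4 : 3 * c₁ * θ ^ m * (a2 : ℝ) ≤ 3 * c₁ * θ ^ m * (4 * K₁ / c₁ * θ * a1) :=
      mul_le_mul_of_nonneg_left ih p2
    have h5 : 3 * c₁ * θ ^ m * (4 * K₁ / c₁ * θ * (a1 : ℝ)) = 3 * c₁ * θ ^ m * a1 * (4 * K₁ / c₁ * θ) := by ring
    have h6 : 3 * c₁ * θ ^ m * (a1 : ℝ) * (4 * K₁ / c₁ * θ) ≤ 3 * c₁ * θ ^ m * a1 * (1 / 6) :=
      mul_le_mul_of_nonneg_left hK1 (mul_nonneg p2 hA)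
    linarith
  refine ⟨?_, ?_, ?_⟩
  · rw [hof _ _ p4, hcoe b2, ENNReal.ofReal_le_ofReal_iff (by positivity)]
    have h7 : K₁ * θ ^ (m + 1) * (a2 : ℝ) ≤ K₁ * θ ^ (m + 1) * (1 * a1) := by
      apply mul_le_mul_of_nonneg_left _ p3
      refine ih.trans ?_
      apply mul_le_mul_of_nonneg_right _ hA
      linarith
    have h8 : 4 * K₁ / c₁ * θ * (c₁ / 2 * θ ^ m * (a1 : ℝ)) = 2 * (K₁ * θ ^ (m + 1) * a1) := by
      field_simp
      ring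
    have h9 := mul_le_mul_of_nonneg_left hlow p4
    linarith
  · have h3 : (b1 : ℝ≥0∞) ≤ (a1 : ℝ≥0∞) := by exact_mod_cast hb1'
    exact h3.trans ha
  · rw [hof _ _ p5, hcoe b1, ENNReal.ofReal_le_ofReal_iff (by positivity)]
    exact hlow

theorem PTD (hRC0 : RC0_stmt) (hRC1 : RC1_stmt) (hRC2 : RC2_stmt) (hIN1 : IN1_stmt) (hHMN : HMN_stmt) :
    PTD_stmt := by
  intro M hM
  obtain ⟨K₁, θ₁, hK₁, hθ₁, hθ₁1, h2⟩ := hRC2 M hM
  obtain ⟨c₁, hc₁, hc₁1, h1⟩ := hRC1 M hM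
  have hMr : (1 : ℝ) ≤ M := by exact_mod_cast hM
  have hKp : 0 < 4 * K₁ / c₁ := by positivity
  refine ⟨4 * K₁ / c₁, c₁ / 2, min θ₁ (min (1 / (16 * (M : ℝ) ^ 2)) (1 / (6 * (4 * K₁ / c₁)))), hKp,
    by positivity, by linarith, ?_, ?_, ?_⟩
  · apply lt_min hθ₁ (lt_min (by positivity) (by positivity))
  · exact (min_le_left _ _).trans hθ₁1
  intro θ H X hθ hθ0
  have e1 : θ ≤ θ₁ := hθ0.trans (min_le_left _ _)
  have e2 : θ ≤ 1 / (16 * (M : ℝ) ^ 2) := hθ0.trans ((min_le_right _ _).trans (min_le_left _ _))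
  have e3 : θ ≤ 1 / (6 * (4 * K₁ / c₁)) := hθ0.trans ((min_le_right _ _).trans (min_le_right _ _))
  have e4 : θ ≤ 1 := e1.trans hθ₁1
  have e5 : 4 * K₁ / c₁ * θ ≤ 1 / 6 := by
    rw [le_div_iff₀ (by positivity)] at e3
    linarith
  have e6 : 16 * (M : ℝ) ^ 2 * θ ≤ 1 := by
    rw [le_div_iff₀ (by positivity)] at e2
    linarith
  intro hMH
  have hH : 1 ≤ H := hM.trans hMH
  -- the step
  have step : ∀ (X : List Pat) (b : Pat), b.1 + 1 ≤ M →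
      A2 H (den θ H) X ≤ ENNReal.ofReal (4 * K₁ / c₁ * θ) * A1 H (den θ H) X → A1 H (den θ H) X ≤ 1 →
      A2 H (den θ H) (X ++ [b]) ≤ ENNReal.ofReal (4 * K₁ / c₁ * θ) * A1 H (den θ H) (X ++ [b]) ∧
        A1 H (den θ H) (X ++ [b]) ≤ 1 ∧
        ENNReal.ofReal (c₁ / 2 * θ ^ (b.1 + 1)) * A1 H (den θ H) X ≤ A1 H (den θ H) (X ++ [b]) := by
    intro X b hb i1 i2
    have hbM : ((b.1 : ℝ) + 1) ≤ M := by exact_mod_cast hb
    have hb0 : (0 : ℝ) ≤ (b.1 : ℝ) + 1 := by positivity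
    have hρ : (16 * ((b.1 : ℝ) + 1) ^ 2 * θ) ^ (b.1 + 1) ≤ 1 := by
      apply pow_le_one₀ (by positivity)
      have h3 : ((b.1 : ℝ) + 1) ^ 2 ≤ (M : ℝ) ^ 2 := pow_le_pow_left₀ hb0 hbM 2
      calc 16 * ((b.1 : ℝ) + 1) ^ 2 * θ ≤ 16 * (M : ℝ) ^ 2 * θ := by
            apply mul_le_mul_of_nonneg_right _ hθ.le
            linarith
        _ ≤ 1 := e6
    exact PTD_num _ _ _ _ θ c₁ K₁ _ (b.1 + 1) hθ hc₁ hK₁ e5 hρ (hRC0 H θ X b hH hθ.le e4)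
      (h1 θ H X b hθ e4 hMH hb) (h2 θ H X b 1 hθ e1 hH hb hM le_rfl (hIN1 b)) i1 i2
  have main : ∀ X : List Pat, (∀ b ∈ X, b.1 + 1 ≤ M) →
      A2 H (den θ H) X ≤ ENNReal.ofReal (4 * K₁ / c₁ * θ) * A1 H (den θ H) X ∧ A1 H (den θ H) X ≤ 1 ∧
        ENNReal.ofReal ((c₁ / 2 * θ) ^ tl X) ≤ A1 H (den θ H) X := by
    intro X
    induction X using List.reverseRecOn with
    | nil =>
      intro _
      rw [PTD_A1nil hHMN, PTD_A2nil hHMN]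
      refine ⟨zero_le, le_rfl, ?_⟩
      have h : tl [] = 0 := rfl
      rw [h, pow_zero, ENNReal.ofReal_one]
    | append_singleton X b ih =>
      intro hX
      have hX' : ∀ b ∈ X, b.1 + 1 ≤ M := fun b' hb' => hX b' (List.mem_append_left _ hb')
      have hb : b.1 + 1 ≤ M := hX b (List.mem_append_right _ (List.mem_singleton.2 rfl))
      obtain ⟨i1, i2, i3⟩ := ih hX'
      obtain ⟨s1, s2, s3⟩ := step X b hb i1 i2
      refine ⟨s1, s2, le_trans ?_ s3⟩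
      have htl : tl (X ++ [b]) = tl X + (b.1 + 1) := by
        unfold tl
        rw [List.map_append, List.sum_append]
        simp
      rw [htl, pow_add, mul_comm ((c₁ / 2 * θ) ^ tl X), ENNReal.ofReal_mul (by positivity)]
      apply mul_le_mul' _ i3
      apply ENNReal.ofReal_le_ofReal
      rw [mul_pow]
      apply mul_le_mul_of_nonneg_right _ (by positivity)
      have h4 : (c₁ / 2) ^ (b.1 + 1) ≤ (c₁ / 2) ^ 1 :=
        pow_le_pow_of_le_one (by positivity) (by linarith) (by omega)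
      rwa [pow_one] at h4
  intro hX
  obtain ⟨m1, m2, m3⟩ := main X hX
  exact ⟨m1, m2, m3, fun b hb => (step X b hb m1 m2).2.2⟩

end

end Pool.Agent.MSW
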