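import Pool.Agent.helper47.MSW.SpecA
import Pool.Agent.helper47.MSW.SpecB
import Pool.Agent.helper47.MSW.SpecC

/-!
# Row msw:SQS (the total weight of the unique pairs)
-/

set_option autoImplicit false

namespace Pool.Agent.MSW

open Equiv Finset Function MeasureTheory Pool.Agent.helper48.PP
open Pool.Agent.DSW (Pr Has GP wt)
open scoped ENNReal Classical

noncomputable section

theorem SQS_den (θ : ℝ) (H : ℕ) (hθ : 0 < θ) (hθ1 : θ ≤ 1) (hH : 1 ≤ H) : 0 ≤ den θ H ∧ den θ H ≤ 1 := by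
  have hHr : (1 : ℝ) ≤ H := by exact_mod_cast hH
  unfold den
  refine ⟨by positivity, ?_⟩
  rw [div_le_one (by positivity)]
  nlinarith

/-- the number of points in the middle square -/
theorem SQS_cnt (H : ℕ) (hta : ta H ≤ 1) :
    (((H : ℝ≥0∞) + 1) ^ 2)⁻¹ * (∑' s : Pt, ta H ^ nm s * (if Jb H s then 1 else 0)) ≤ 1 := by
  have h1 : ∑' s : Pt, ta H ^ nm s * (if Jb H s then 1 else 0) ≤ ((H : ℝ≥0∞) + 1) ^ 2 := by
    rw [tsum_eq_sum (s := Finset.Ico H (2 * H) ×ˢ Finset.Ico H (2 * H))]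
    · calc ∑ s ∈ Finset.Ico H (2 * H) ×ˢ Finset.Ico H (2 * H), ta H ^ nm s * (if Jb H s then (1 : ℝ≥0∞) else 0)
          ≤ ∑ s ∈ Finset.Ico H (2 * H) ×ˢ Finset.Ico H (2 * H), (1 : ℝ≥0∞) := by
            apply Finset.sum_le_sum
            intro s _
            split_ifs
            · rw [mul_one]
              exact pow_le_one' hta _
            · rw [mul_zero]
              exact zero_le_one
        _ = (H : ℝ≥0∞) ^ 2 := by
            rw [Finset.sum_const, Finset.card_product, Nat.card_Ico, nsmul_eq_mul, mul_one]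
            have h2 : 2 * H - H = H := by omega
            rw [h2]
            push_cast
            ring
        _ ≤ ((H : ℝ≥0∞) + 1) ^ 2 := pow_le_pow_left' le_self_add 2
    · intro s hs
      have h2 : ¬ Jb H s := by
        intro h3
        apply hs
        rw [Finset.mem_product, Finset.mem_Ico, Finset.mem_Ico]
        exact h3
      rw [if_neg h2, mul_zero]
  have h3 : ((H : ℝ≥0∞) + 1) ^ 2 ≠ 0 := by
    apply pow_ne_zero
    intro h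
    have := (add_eq_zero.1 h).2
    exact one_ne_zero this
  have h4 : ((H : ℝ≥0∞) + 1) ^ 2 ≠ ⊤ := ENNReal.pow_ne_top (ENNReal.add_ne_top.2 ⟨ENNReal.natCast_ne_top H, ENNReal.one_ne_top⟩)
  calc (((H : ℝ≥0∞) + 1) ^ 2)⁻¹ * (∑' s : Pt, ta H ^ nm s * (if Jb H s then 1 else 0))
      ≤ (((H : ℝ≥0∞) + 1) ^ 2)⁻¹ * ((H : ℝ≥0∞) + 1) ^ 2 := mul_le_mul_right h1 _
    _ = 1 := ENNReal.inv_mul_cancel h3 h4

theorem SQS_pt (hQLB : QLB_stmt) (hRFB : RFB_stmt) (d : ℝ) (H : ℕ) (X Y : List Pat) (hd0 : 0 ≤ d) (hd1 : d ≤ 1)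
    (hY : ∀ b ∈ Y, RC b) (w : Pt) (pq : Pt × Pt) :
    (if pq.1 ≤ pq.2 ∧ pq.2 ≤ w then Pm d {ω | mnU X ω pq.1 ∧ mnU X ω pq.1} * (if Jb H (pq.2 - pq.1) then 1 else 0) *
      Pm d {ω | mnU Y.reverse ω (w - pq.2) ∧ mnU Y.reverse ω (w - pq.2)} else 0) ≤
    (if pq.1 ≤ pq.2 ∧ Jb H (pq.2 - pq.1) then Pm d {ω | Qe X Y ω w pq.1 pq.2} else 0) +
      ∑' r : Pt × Pt, if (pq.1 ≤ pq.2 ∧ pq.2 ≤ w) ∧ (r.1 ≤ r.2 ∧ r.2 ≤ w) ∧ pq ≠ r then
        Pm d {ω | mnU X ω pq.1 ∧ mnU X ω r.1} *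
          Pm d {ω | mnU Y.reverse ω (w - pq.2) ∧ mnU Y.reverse ω (w - r.2)} *
          (if Jb H (pq.2 - pq.1) then 1 else 0) else 0 := by
  by_cases h : pq.1 ≤ pq.2 ∧ pq.2 ≤ w
  · rw [if_pos h]
    by_cases hJ : Jb H (pq.2 - pq.1)
    · rw [if_pos hJ, mul_one, if_pos (show pq.1 ≤ pq.2 ∧ Jb H (pq.2 - pq.1) from ⟨h.1, hJ⟩)]
      have h1 := hQLB d X Y w pq.1 pq.2 hd0 hd1 h.1 h.2
      have h2 : ({ω : Om | mnU X ω pq.1 ∧ mnU X ω pq.1}) = {ω | mnU X ω pq.1} := by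
        ext ω
        exact and_self_iff
      have h3 : Pm d {ω | mxV Y ω w pq.2} =
          Pm d {ω | mnU Y.reverse ω (w - pq.2) ∧ mnU Y.reverse ω (w - pq.2)} := by
        have h4 := hRFB Y hY d hd0 hd1 w pq.2 pq.2 h.2 h.2
        rw [← h4]
        congr 1
        ext ω
        exact and_self_iff.symm
      rw [h2, ← h3]
      refine h1.trans ?_
      apply add_le_add le_rfl
      apply ENNReal.tsum_le_tsum
      intro r
      by_cases hr : (r.1 ≤ r.2 ∧ r.2 ≤ w) ∧ (pq.1, pq.2) ≠ r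
      · rw [if_pos hr, if_pos ⟨h, hr.1, hr.2⟩, mul_one, hRFB Y hY d hd0 hd1 w pq.2 r.2 h.2 hr.1.2]
      · rw [if_neg hr]
        exact zero_le
    · rw [if_neg hJ, mul_zero, zero_mul]
      exact zero_le
  · rw [if_neg h]
    exact zero_le

theorem SQS_main (hQLB : QLB_stmt) (hTSM : TSM_stmt) (hTSE : TSE_stmt) (hRFB : RFB_stmt) (hGEW : GEW_stmt)
    (d : ℝ) (H : ℕ) (X Y : List Pat) (hH : 1 ≤ H) (hd0 : 0 ≤ d) (hd1 : d ≤ 1) (hY : ∀ b ∈ Y, RC b) :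
    ENNReal.ofReal (1 / 324) * (A1 H d X * A1 H d Y.reverse) ≤ SQ H d X Y + ER H d X Y := by
  obtain ⟨g1, g2, g3, g4, g5, g6⟩ := hGEW H hH
  obtain ⟨F2, hF2⟩ : ∃ F2 : Pt → Pt → ℝ≥0∞, F2 = fun p p' => Pm d {ω | mnU X ω p ∧ mnU X ω p'} := ⟨_, rfl⟩
  obtain ⟨G2, hG2⟩ : ∃ G2 : Pt → Pt → ℝ≥0∞, G2 = fun p p' => Pm d {ω | mnU Y.reverse ω p ∧ mnU Y.reverse ω p'} := ⟨_, rfl⟩
  obtain ⟨φ, hφ⟩ : ∃ φ : Pt → ℝ≥0∞, φ = fun s => if Jb H s then 1 else 0 := ⟨_, rfl⟩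
  have eself : ∀ (Z : List Pat) (z : Pt), ({ω : Om | mnU Z ω z ∧ mnU Z ω z}) = {ω | mnU Z ω z} := by
    intro Z z
    ext ω
    exact and_self_iff
  have s1 : S1 H F2 = A1 H d X := by
    unfold S1 A1
    rw [hF2]
    simp only [eself]
  have s2 : S1 H G2 = A1 H d Y.reverse := by
    unfold S1 A1
    rw [hG2]
    simp only [eself]
  have s3 : S2 H F2 = A2 H d X := by
    unfold S2 A2
    rw [hF2]
  have s4 : S2 H G2 = A2 H d Y.reverse := by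
    unfold S2 A2
    rw [hG2]
  have t1 := hTSM H (fun p => F2 p p) φ (fun t => G2 t t) hH
  have t2 := hTSE H F2 G2 φ hH
  have e1 : (∑' p : Pt, ta H ^ (2 * nm p) * (fun p => F2 p p) p) = S1 H F2 := rfl
  have e2 : (∑' p : Pt, ta H ^ (2 * nm p) * (fun t => G2 t t) p) = S1 H G2 := rfl
  rw [e1, e2, s1, s2] at t1
  rw [s1, s2, s3, s4] at t2
  have hφ1 : ENNReal.ofReal (1 / 324) ≤ ∑' s : Pt, wt H s.1 * wt H s.2 * φ s := by
    rw [hφ]
    exact g6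
  have hφ2 : (((H : ℝ≥0∞) + 1) ^ 2)⁻¹ * (∑' s : Pt, ta H ^ nm s * φ s) ≤ 1 := by
    rw [hφ]
    exact SQS_cnt H g1.1
  have hER : (((H : ℝ≥0∞) + 1) ^ 2)⁻¹ * (∑' s : Pt, ta H ^ nm s * φ s) *
      (A2 H d X * A1 H d Y.reverse + A1 H d X * A2 H d Y.reverse + A2 H d X * A2 H d Y.reverse) ≤ ER H d X Y := by
    unfold ER
    calc _ ≤ 1 * (A2 H d X * A1 H d Y.reverse + A1 H d X * A2 H d Y.reverse + A2 H d X * A2 H d Y.reverse) :=
          mul_le_mul' hφ2 le_rfl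
      _ = _ := one_mul _
  have hL : ENNReal.ofReal (1 / 324) * (A1 H d X * A1 H d Y.reverse) ≤
      A1 H d X * (∑' s : Pt, wt H s.1 * wt H s.2 * φ s) * A1 H d Y.reverse := by
    calc ENNReal.ofReal (1 / 324) * (A1 H d X * A1 H d Y.reverse)
        = A1 H d X * ENNReal.ofReal (1 / 324) * A1 H d Y.reverse := by ring
      _ ≤ _ := mul_le_mul' (mul_le_mul' le_rfl hφ1) le_rfl
  refine hL.trans ?_
  rw [← t1]
  refine le_trans ?_ (add_le_add le_rfl (t2.trans hER))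
  unfold SQ
  rw [← ENNReal.tsum_add]
  apply ENNReal.tsum_le_tsum
  intro w
  rw [← mul_add]
  apply mul_le_mul' le_rfl
  have tp : (∑' r : (Pt × Pt) × (Pt × Pt),
      if (r.1.1 ≤ r.1.2 ∧ r.1.2 ≤ w) ∧ (r.2.1 ≤ r.2.2 ∧ r.2.2 ≤ w) ∧ r.1 ≠ r.2 then
        F2 r.1.1 r.2.1 * G2 (w - r.1.2) (w - r.2.2) * φ (r.1.2 - r.1.1) else 0) =
      ∑' pq : Pt × Pt, ∑' r : Pt × Pt, if (pq.1 ≤ pq.2 ∧ pq.2 ≤ w) ∧ (r.1 ≤ r.2 ∧ r.2 ≤ w) ∧ pq ≠ r then
        F2 pq.1 r.1 * G2 (w - pq.2) (w - r.2) * φ (pq.2 - pq.1) else 0 := ENNReal.tsum_prod'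
  rw [tp, ← ENNReal.tsum_add]
  apply ENNReal.tsum_le_tsum
  intro pq
  rw [hF2, hG2, hφ]
  exact SQS_pt hQLB hRFB d H X Y hd0 hd1 hY w pq

theorem SQS (hQLB : QLB_stmt) (hTSM : TSM_stmt) (hTSE : TSE_stmt) (hRFB : RFB_stmt) (hGEW : GEW_stmt)
    (hPTD : PTD_stmt) : SQS_stmt := by
  intro M hM
  obtain ⟨K, c, θ₀, hK, hc, hc1, hθ₀, hθ₀1, h⟩ := hPTD M hM
  refine ⟨min θ₀ (1 / (1944 * K)), lt_min hθ₀ (by positivity), (min_le_left _ _).trans hθ₀1, ?_⟩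
  intro θ H X Y hθ hθ1 hMH hX hY
  have hH : 1 ≤ H := hM.trans hMH
  have e1 : θ ≤ θ₀ := hθ1.trans (min_le_left _ _)
  have e2 : θ ≤ 1 / (1944 * K) := hθ1.trans (min_le_right _ _)
  have e3 : K * θ ≤ 1 / 1944 := by
    rw [le_div_iff₀ (by positivity)] at e2
    linarith
  obtain ⟨d0, d1⟩ := SQS_den θ H hθ (e1.trans hθ₀1) hH
  obtain ⟨a1, a2, _, _⟩ := h θ H X hθ e1 hMH (fun b hb => (hX b hb).1)
  obtain ⟨b1, b2, _, _⟩ := h θ H Y.reverse hθ e1 hMH (fun b hb => (hY b (List.mem_reverse.1 hb)).1)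
  have hm := SQS_main hQLB hTSM hTSE hRFB hGEW (den θ H) H X Y hH d0 d1 (fun b hb => (hY b hb).2)
  obtain ⟨A, hA⟩ : ∃ A, A = A1 H (den θ H) X := ⟨_, rfl⟩
  obtain ⟨B, hB⟩ : ∃ B, B = A1 H (den θ H) Y.reverse := ⟨_, rfl⟩
  obtain ⟨A', hA'⟩ : ∃ A, A = A2 H (den θ H) X := ⟨_, rfl⟩
  obtain ⟨B', hB'⟩ : ∃ B, B = A2 H (den θ H) Y.reverse := ⟨_, rfl⟩
  unfold ER at hm
  rw [← hA, ← hB, ← hA', ← hB'] at hm
  rw [← hA, ← hA'] at a1
  rw [← hB, ← hB'] at b1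
  rw [← hA] at a2
  rw [← hB] at b2
  rw [← hA, ← hB]
  have hk1 : ENNReal.ofReal (K * θ) ≤ 1 := ENNReal.ofReal_le_one.2 (by linarith)
  have hbd : A' * B + A * B' + A' * B' ≤ ENNReal.ofReal (1 / 648) * (A * B) := by
    have f1 : A' * B ≤ ENNReal.ofReal (K * θ) * (A * B) := by
      calc A' * B ≤ ENNReal.ofReal (K * θ) * A * B := mul_le_mul' a1 le_rfl
        _ = _ := by ring
    have f2 : A * B' ≤ ENNReal.ofReal (K * θ) * (A * B) := by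
      calc A * B' ≤ A * (ENNReal.ofReal (K * θ) * B) := mul_le_mul' le_rfl b1
        _ = _ := by ring
    have f3 : A' * B' ≤ ENNReal.ofReal (K * θ) * (A * B) := by
      calc A' * B' ≤ (ENNReal.ofReal (K * θ) * A) * (ENNReal.ofReal (K * θ) * B) := mul_le_mul' a1 b1
        _ ≤ (1 * A) * (ENNReal.ofReal (K * θ) * B) := mul_le_mul' (mul_le_mul' hk1 le_rfl) le_rfl
        _ = _ := by ring
    calc A' * B + A * B' + A' * B' ≤ ENNReal.ofReal (K * θ) * (A * B) + ENNReal.ofReal (K * θ) * (A * B) +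
          ENNReal.ofReal (K * θ) * (A * B) := add_le_add (add_le_add f1 f2) f3
      _ = ENNReal.ofReal (3 * (K * θ)) * (A * B) := by
          rw [ENNReal.ofReal_mul (by norm_num : (0 : ℝ) ≤ 3)]
          have : ENNReal.ofReal 3 = 3 := by simp
          rw [this]
          ring
      _ ≤ _ := by
          apply mul_le_mul' _ le_rfl
          apply ENNReal.ofReal_le_ofReal
          linarith
  have hfin : ENNReal.ofReal (1 / 648) * (A * B) ≠ ⊤ := by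
    apply ENNReal.mul_ne_top ENNReal.ofReal_ne_top
    apply ENNReal.mul_ne_top
    · exact ne_top_of_le_ne_top ENNReal.one_ne_top a2
    · exact ne_top_of_le_ne_top ENNReal.one_ne_top b2
  have hsplit : ENNReal.ofReal (1 / 324) * (A * B) = ENNReal.ofReal (1 / 648) * (A * B) +
      ENNReal.ofReal (1 / 648) * (A * B) := by
    rw [← add_mul, ← ENNReal.ofReal_add (by norm_num) (by norm_num)]
    norm_num
  rw [hsplit] at hm
  have hm2 := hm.trans (add_le_add le_rfl hbd)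
  exact (ENNReal.add_le_add_iff_right hfin).1 hm2

end

end Pool.Agent.MSW
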